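import Pool.Agent.Helper14.LC.Df

/-!
PROJECT LT (MP_274814), block C, piece LCC: the resultant.
-/

namespace Pool.Agent.Helper60.LC

open Polynomial Pool.Agent.Helper14.LC

/-! ### the substitution -/

theorem sb_eq {R : Type} [CommRing R] (l h : R) (Q : MvPolynomial (Fin 2) ℤ) :
    sb l h Q = ∑ m ∈ Q.support,
      C ((Q.coeff m : ℤ) : R) * ((C l - C h * X) ^ (m 0) * X ^ (m 1)) := by
  unfold sb
  rw [MvPolynomial.aeval_def, MvPolynomial.eval₂_eq']
  refine Finset.sum_congr rfl fun m _ => ?_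
  rw [Fin.prod_univ_two]
  simp

theorem sb_map {R S : Type} [CommRing R] [CommRing S] (φ : R →+* S) (l h : R)
    (Q : MvPolynomial (Fin 2) ℤ) : (sb l h Q).map φ = sb (φ l) (φ h) Q := by
  rw [sb_eq, sb_eq, Polynomial.map_sum]
  refine Finset.sum_congr rfl fun m _ => ?_
  simp

theorem sb_eval {R : Type} [CommRing R] (l h y : R) (Q : MvPolynomial (Fin 2) ℤ) :
    (sb l h Q).eval y = MvPolynomial.aeval ![l - h * y, y] Q := by
  rw [sb_eq, MvPolynomial.aeval_def, MvPolynomial.eval₂_eq', Polynomial.eval_finsetSum]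
  refine Finset.sum_congr rfl fun m _ => ?_
  rw [Fin.prod_univ_two]
  simp

theorem Rs_ev {R : Type} [CommRing R] (l h : R) (Q₁ Q₂ : MvPolynomial (Fin 2) ℤ) :
    ev l h (Rs Q₁ Q₂) =
      resultant (sb l h Q₁) (sb l h Q₂) Q₁.totalDegree Q₂.totalDegree := by
  have h1 : ev l h (X : ℤ[X][X]) = l := by simp [ev]
  have h2 : ev l h (C X : ℤ[X][X]) = h := by simp [ev]
  unfold Rs
  rw [← resultant_map_map, sb_map, sb_map, h1, h2]

theorem deg_eq (m : Fin 2 →₀ ℕ) : m.degree = m 0 + m 1 := by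
  rw [Finsupp.degree_eq_sum, Fin.sum_univ_two]

theorem deg_le {Q : MvPolynomial (Fin 2) ℤ} {m : Fin 2 →₀ ℕ} (hm : m ∈ Q.support) :
    m 0 + m 1 ≤ Q.totalDegree := by
  rw [← deg_eq]
  exact MvPolynomial.le_totalDegree hm

theorem lin_natDegree {R : Type} [CommRing R] (l h : R) : (C l - C h * X : R[X]).natDegree ≤ 1 := by
  refine (natDegree_sub_le _ _).trans ?_
  rw [natDegree_C]
  exact max_le (Nat.zero_le _) ((natDegree_C_mul_le _ _).trans natDegree_X_le)

theorem term_natDegree {R : Type} [CommRing R] (l h c : R) (a b : ℕ) :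
    (C c * ((C l - C h * X) ^ a * X ^ b) : R[X]).natDegree ≤ a + b := by
  refine (natDegree_C_mul_le _ _).trans (natDegree_mul_le.trans (add_le_add ?_ ?_))
  · have := natDegree_pow_le_of_le a (lin_natDegree l h)
    simpa using this
  · exact natDegree_X_pow_le b

theorem sb_natDegree {R : Type} [CommRing R] (l h : R) (Q : MvPolynomial (Fin 2) ℤ) :
    (sb l h Q).natDegree ≤ Q.totalDegree := by
  rw [sb_eq]
  refine natDegree_sum_le_of_forall_le _ _ fun m hm => ?_
  exact (term_natDegree l h _ _ _).trans (deg_le hm)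

theorem term_coeff {R : Type} [CommRing R] (l h c : R) (a b : ℕ) :
    (C c * ((C l - C h * X) ^ a * X ^ b) : R[X]).coeff (a + b) = c * (-h) ^ a := by
  rw [coeff_C_mul, coeff_mul_X_pow]
  have := coeff_pow_of_natDegree_le (m := a) (lin_natDegree l h)
  rw [mul_one] at this
  rw [this]
  simp

theorem sb_coeff_top {R : Type} [CommRing R] (l h : R) (Q : MvPolynomial (Fin 2) ℤ) :
    (sb l h Q).coeff Q.totalDegree = (top Q).eval₂ (Int.castRingHom R) h := by
  rw [sb_eq, finsetSum_coeff, top, eval₂_finsetSum, Finset.sum_filter]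
  refine Finset.sum_congr rfl fun m hm => ?_
  split_ifs with hd
  · rw [← hd, deg_eq, term_coeff, eval₂_mul, eval₂_C, eval₂_pow, eval₂_neg, eval₂_X]
    rfl
  · apply coeff_eq_zero_of_natDegree_lt
    refine (term_natDegree l h _ _ _).trans_lt ?_
    have h1 := deg_le hm
    rw [deg_eq] at hd
    omega

theorem top_ne {Q : MvPolynomial (Fin 2) ℤ} (hQ : Q ≠ 0) : top Q ≠ 0 := by
  obtain ⟨m, hm, hmd⟩ : ∃ m ∈ Q.support, m.degree = Q.totalDegree := by
    have hne : Q.support.Nonempty := MvPolynomial.support_nonempty.2 hQ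
    obtain ⟨m, hm, h⟩ := Finset.exists_mem_eq_sup Q.support hne (fun m => m.degree)
    exact ⟨m, hm, h.symm⟩
  intro h0
  have h1 : (top Q).coeff (m 0) = Q.coeff m * (-1) ^ (m 0) := by
    unfold top
    rw [finsetSum_coeff, Finset.sum_eq_single m]
    · rw [coeff_C_mul, neg_pow, ← C_1, ← C_neg, ← C_pow, coeff_C_mul_X_pow]
      simp
    · intro m' hm' hne
      rw [Finset.mem_filter] at hm'
      rw [coeff_C_mul, neg_pow, ← C_1, ← C_neg, ← C_pow, coeff_C_mul_X_pow, if_neg, mul_zero]
      intro h2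
      apply hne
      have h3 : m' 1 = m 1 := by
        have h4 := hm'.2
        rw [← hmd, deg_eq, deg_eq] at h4
        omega
      ext i
      fin_cases i
      · exact h2.symm
      · exact h3
    · intro hn
      exact absurd (Finset.mem_filter.2 ⟨hm, hmd⟩) hn
  rw [h0, coeff_zero] at h1
  have h2 : Q.coeff m ≠ 0 := MvPolynomial.mem_support_iff.1 hm
  exact mul_ne_zero h2 (pow_ne_zero _ (by norm_num)) h1.symm

/-! ### zeros of the resultant -/

/-- a zero of the resultant gives a common zero on the line -/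
theorem line {k : Type} [Field k] [IsAlgClosed k] (Q₁ Q₂ : MvPolynomial (Fin 2) ℤ) (l h : k)
    (ht : (top Q₁).eval₂ (Int.castRingHom k) h ≠ 0) (hr : ev l h (Rs Q₁ Q₂) = 0) :
    ∃ y ∈ (sb l h Q₁).roots, (sb l h Q₂).eval y = 0 := by
  have hd : (sb l h Q₁).natDegree = Q₁.totalDegree := by
    refine le_antisymm (sb_natDegree l h Q₁) (le_natDegree_of_ne_zero ?_)
    rw [sb_coeff_top]
    exact ht
  have h0 : (sb l h Q₁).leadingCoeff ≠ 0 := by
    rw [leadingCoeff, hd, sb_coeff_top]
    exact ht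
  rw [Rs_ev, ← hd, resultant_eq_prod_eval _ _ _ (sb_natDegree l h Q₂)
    (IsAlgClosed.splits _)] at hr
  rcases mul_eq_zero.1 hr with h1 | h1
  · exact absurd h1 (pow_ne_zero _ h0)
  · obtain ⟨y, hy, hy0⟩ := Multiset.mem_map.1 (Multiset.prod_eq_zero_iff.1 h1)
    exact ⟨y, hy, hy0⟩

theorem exists_h {k : Type} [Field k] [CharZero k] {p : ℤ[X]} (hp : p ≠ 0) :
    ∃ h : k, p.eval₂ (Int.castRingHom k) h ≠ 0 := by
  by_contra hno
  push Not at hno
  have h1 : p.map (Int.castRingHom k) = 0 := by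
    apply Polynomial.funext
    intro h
    rw [eval_map, hno h, eval_zero]
  exact hp ((Polynomial.map_eq_zero_iff (RingHom.injective_int _)).1 h1)

theorem Rs_ne (Q₁ : MvPolynomial (Fin 2) ℤ) (hQ : Q₁ ≠ 0) :
    ∃ E : Finset (Fin 2 → ℂ), E.card ≤ Q₁.totalDegree ∧
      ∀ Q₂ : MvPolynomial (Fin 2) ℤ, (∀ x ∈ E, MvPolynomial.aeval x Q₂ ≠ 0) →
        Rs Q₁ Q₂ ≠ 0 := by
  classical
  obtain ⟨h, hh⟩ := exists_h (k := ℂ) (top_ne hQ)
  refine ⟨(sb 0 h Q₁).roots.toFinset.image (fun y => ![0 - h * y, y]), ?_, ?_⟩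
  · refine Finset.card_image_le.trans ?_
    refine (Multiset.toFinset_card_le _).trans ?_
    exact (card_roots' _).trans (sb_natDegree 0 h Q₁)
  · intro Q₂ hE h0
    obtain ⟨y, hy, hy0⟩ := line Q₁ Q₂ 0 h hh (by rw [h0, map_zero])
    rw [sb_eval] at hy0
    exact hE _ (Finset.mem_image_of_mem _ (Multiset.mem_toFinset.2 hy)) hy0

/-! ### splitting -/

section
variable {k : Type} [Field k]

/-- a common zero gives a root which is affine linear in `h` -/
theorem root_of_zero (Q₁ Q₂ : MvPolynomial (Fin 2) ℤ)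
    (hd : Q₁.totalDegree ≠ 0 ∨ Q₂.totalDegree ≠ 0) (x : Fin 2 → k)
    (h1 : MvPolynomial.aeval x Q₁ = 0) (h2 : MvPolynomial.aeval x Q₂ = 0) :
    ev (C (x 0) + C (x 1) * X : k[X]) X (Rs Q₁ Q₂) = 0 := by
  rw [Rs_ev]
  obtain ⟨p, q, -, -, hpq⟩ := exists_mul_add_mul_eq_C_resultant _ _
    (sb_natDegree (C (x 0) + C (x 1) * X : k[X]) X Q₁)
    (sb_natDegree (C (x 0) + C (x 1) * X : k[X]) X Q₂) hd
  have key : ∀ Q : MvPolynomial (Fin 2) ℤ, MvPolynomial.aeval x Q = 0 →
      (sb (C (x 0) + C (x 1) * X : k[X]) X Q).eval (C (x 1)) = 0 := by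
    intro Q hQ
    rw [sb_eval]
    have h3 : (![C (x 0) + C (x 1) * X - X * C (x 1), C (x 1)] : Fin 2 → k[X]) =
        fun i => C (x i) := by
      funext i
      fin_cases i
      · simp only [Fin.zero_eta, Matrix.cons_val_zero]
        ring
      · rfl
    rw [h3]
    have h5 := congrArg C hQ
    rw [MvPolynomial.aeval_def, MvPolynomial.eval₂_eq', map_sum, C_0] at h5
    rw [MvPolynomial.aeval_def, MvPolynomial.eval₂_eq', ← h5]
    refine Finset.sum_congr rfl fun m _ => ?_
    simp
  have h5 := congrArg (eval (C (x 1))) hpq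
  rw [eval_add, eval_mul, eval_mul, key Q₁ h1, key Q₂ h2, zero_mul, zero_mul, add_zero,
    eval_C] at h5
  exact h5.symm

/-- evaluation through the mapped polynomial -/
theorem ev_eval (F : ℤ[X][X]) (a : k[X]) :
    ev a X F = (F.map (mapRingHom (Int.castRingHom k))).eval a := by
  have h1 : (eval₂RingHom (Int.castRingHom k[X]) X : ℤ[X] →+* k[X]) =
      mapRingHom (Int.castRingHom k) := by
    apply Polynomial.ringHom_ext
    · intro a
      simp
    · simp
  rw [eval_map]
  unfold ev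
  rw [coe_eval₂RingHom, h1]

theorem ev_eval2 (F : ℤ[X][X]) (l h : k) :
    ev l h F = ((F.map (mapRingHom (Int.castRingHom k))).map (evalRingHom h)).eval l := by
  have h1 : (eval₂RingHom (Int.castRingHom k) h : ℤ[X] →+* k) =
      (evalRingHom h).comp (mapRingHom (Int.castRingHom k)) := by
    apply Polynomial.ringHom_ext
    · intro a
      simp
    · simp
  rw [map_map, eval_map]
  unfold ev
  rw [coe_eval₂RingHom, h1]

/-- splitting from the existence of roots for all factors -/
theorem split_aux (Z : Set (Fin 2 → k)) (F : k[X][X])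
    (hF : ∀ p : k[X][X], p ∣ F → 0 < p.natDegree →
      ∃ x ∈ Z, p.eval (C (x 0) + C (x 1) * X) = 0) :
    ∀ (n : ℕ) (p : k[X][X]), p ∣ F → p ≠ 0 → p.natDegree = n →
      ∃ r : Fin n → Fin 2 → k, (∀ j, r j ∈ Z) ∧
        p = C p.leadingCoeff * ∏ j, (X - C (C (r j 0) + C (r j 1) * X)) := by
  intro n
  induction n with
  | zero =>
    intro p _ _ hn
    refine ⟨fun j => j.elim0, fun j => j.elim0, ?_⟩
    rw [Finset.univ_eq_empty, Finset.prod_empty, mul_one]
    conv_lhs => rw [eq_C_of_natDegree_eq_zero hn]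
    rw [leadingCoeff, hn]
  | succ n ih =>
    intro p hp h0 hn
    obtain ⟨x, hx, hx0⟩ := hF p hp (by omega)
    obtain ⟨p', hp'⟩ := dvd_iff_isRoot.2 hx0
    have hp0 : p' ≠ 0 := by
      rintro rfl
      rw [mul_zero] at hp'
      exact h0 hp'
    have hdeg : p'.natDegree = n := by
      have h1 := congrArg natDegree hp'
      rw [hn, natDegree_mul (X_sub_C_ne_zero _) hp0, natDegree_X_sub_C] at h1
      omega
    have hlc : p.leadingCoeff = p'.leadingCoeff := by
      rw [hp', leadingCoeff_mul, leadingCoeff_X_sub_C, one_mul]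
    obtain ⟨r, hr, hr'⟩ := ih p' ((dvd_of_mul_left_eq _ hp'.symm).trans hp) hp0 hdeg
    refine ⟨Fin.cons x r, ?_, ?_⟩
    · intro j
      refine Fin.cases ?_ (fun i => ?_) j
      · exact hx
      · exact hr i
    · rw [Fin.prod_univ_succ, hlc]
      simp only [Fin.cons_zero, Fin.cons_succ]
      conv_lhs => rw [hp', hr']
      ring

end

theorem Rs_split (k : Type) [Field k] [IsAlgClosed k] [CharZero k]
    (Q₁ Q₂ : MvPolynomial (Fin 2) ℤ) (hR : Rs Q₁ Q₂ ≠ 0) :
    ∃ r : Fin (Rs Q₁ Q₂).natDegree → Fin 2 → k,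
      (∀ j, MvPolynomial.aeval (r j) Q₁ = 0 ∧ MvPolynomial.aeval (r j) Q₂ = 0) ∧
      (Rs Q₁ Q₂).map (mapRingHom (Int.castRingHom k)) =
        C ((Rs Q₁ Q₂).leadingCoeff.map (Int.castRingHom k)) *
          ∏ j, (X - C (C (r j 0) + C (r j 1) * X)) := by
  classical
  set F : k[X][X] := (Rs Q₁ Q₂).map (mapRingHom (Int.castRingHom k)) with hFdef
  have hinj : Function.Injective (mapRingHom (Int.castRingHom k) : ℤ[X] →+* k[X]) :=
    Polynomial.map_injective _ (RingHom.injective_int _)
  have hF0 : F ≠ 0 := (Polynomial.map_ne_zero_iff hinj).2 hR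
  have hdeg : F.natDegree = (Rs Q₁ Q₂).natDegree := natDegree_map_eq_of_injective hinj _
  have hlc : F.leadingCoeff = (Rs Q₁ Q₂).leadingCoeff.map (Int.castRingHom k) := by
    rw [hFdef, leadingCoeff_map_of_injective hinj]
    rfl
  set Z : Set (Fin 2 → k) := {x | MvPolynomial.aeval x Q₁ = 0 ∧ MvPolynomial.aeval x Q₂ = 0}
    with hZ
  have main : ∀ p : k[X][X], p ∣ F → 0 < p.natDegree →
      ∃ x ∈ Z, p.eval (C (x 0) + C (x 1) * X) = 0 := by
    intro p hp hpd
    have hp0 : p ≠ 0 := fun h => by rw [h, natDegree_zero] at hpd; exact lt_irrefl _ hpd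
    have hFd : 0 < (Rs Q₁ Q₂).natDegree := by
      rw [← hdeg]
      exact hpd.trans_le (natDegree_le_of_dvd hp hF0)
    have hd : Q₁.totalDegree ≠ 0 ∨ Q₂.totalDegree ≠ 0 := by
      by_contra hno
      push Not at hno
      have h1 : Rs Q₁ Q₂ = 1 := by
        unfold Rs
        rw [hno.1, hno.2, resultant_zero_left_deg, pow_zero]
      rw [h1, natDegree_one] at hFd
      exact lt_irrefl _ hFd
    have hQ1 : Q₁ ≠ 0 := by
      rintro rfl
      rw [MvPolynomial.totalDegree_zero] at hd
      have hd2 : (Q₂.totalDegree) ≠ 0 := by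
        rcases hd with h | h
        · exact absurd rfl h
        · exact h
      apply hR
      unfold Rs
      rw [MvPolynomial.totalDegree_zero, resultant_zero_left_deg, map_zero, coeff_zero,
        zero_pow hd2]
    have hfin : Z.Finite := by
      have hmaps : Set.MapsTo (fun x : Fin 2 → k => (C (x 0) + C (x 1) * X : k[X])) Z
          (F.roots.toFinset : Set k[X]) := by
        intro x hx
        rw [Finset.mem_coe, Multiset.mem_toFinset, mem_roots hF0, IsRoot.def, hFdef, ← ev_eval]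
        exact root_of_zero Q₁ Q₂ hd x hx.1 hx.2
      refine Set.Finite.of_injOn hmaps ?_ (Finset.finite_toSet _)
      intro x _ y _ hxy
      simp only at hxy
      have h1 := congrArg (fun p => p.coeff 0) hxy
      have h2 := congrArg (fun p => p.coeff 1) hxy
      simp at h1 h2
      funext i
      fin_cases i
      · exact h1
      · exact h2
    by_contra hno
    push Not at hno
    have ht : ((top Q₁).map (Int.castRingHom k)) ≠ 0 :=
      (Polynomial.map_ne_zero_iff (RingHom.injective_int _)).2 (top_ne hQ1)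
    have hG : (top Q₁).map (Int.castRingHom k) * p.leadingCoeff *
        ∏ x ∈ hfin.toFinset, p.eval (C (x 0) + C (x 1) * X) = 0 := by
      apply Polynomial.funext
      intro h
      rw [eval_zero, eval_mul, eval_mul]
      by_cases ha : eval h ((top Q₁).map (Int.castRingHom k)) = 0
      · rw [ha, zero_mul, zero_mul]
      by_cases hb : eval h p.leadingCoeff = 0
      · rw [hb, mul_zero, zero_mul]
      have hpn : (p.map (evalRingHom h)).natDegree = p.natDegree :=
        natDegree_map_of_leadingCoeff_ne_zero _ hb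
      have hpd' : (p.map (evalRingHom h)).degree ≠ 0 := by
        intro h0
        have := natDegree_eq_zero_iff_degree_le_zero.2 h0.le
        omega
      obtain ⟨l, hl⟩ := IsAlgClosed.exists_root _ hpd'
      have hev : ev l h (Rs Q₁ Q₂) = 0 := by
        rw [ev_eval2]
        obtain ⟨q, hq⟩ := hp
        rw [← hFdef, hq, Polynomial.map_mul, eval_mul, hl, zero_mul]
      rw [eval_map] at ha
      obtain ⟨y, hy, hy2⟩ := line Q₁ Q₂ l h ha hev
      have hy1 : (sb l h Q₁).eval y = 0 := (mem_roots'.1 hy).2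
      rw [sb_eval] at hy1 hy2
      have hmem : (![l - h * y, y] : Fin 2 → k) ∈ hfin.toFinset := by
        rw [Set.Finite.mem_toFinset]
        exact ⟨hy1, hy2⟩
      have hz : eval h (p.eval (C ((![l - h * y, y] : Fin 2 → k) 0) +
          C ((![l - h * y, y] : Fin 2 → k) 1) * X)) = 0 := by
        have h3 : eval h (p.eval (C ((![l - h * y, y] : Fin 2 → k) 0) +
            C ((![l - h * y, y] : Fin 2 → k) 1) * X)) = (p.map (evalRingHom h)).eval l := by
          have h4 : evalRingHom h (C ((![l - h * y, y] : Fin 2 → k) 0) +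
              C ((![l - h * y, y] : Fin 2 → k) 1) * X) = l := by
            simp
            ring
          rw [eval_map]
          conv_rhs => rw [← h4]
          rw [eval₂_at_apply]
          rfl
        rw [h3]
        exact hl
      rw [eval_prod, Finset.prod_eq_zero hmem hz, mul_zero]
    rcases mul_eq_zero.1 hG with h1 | h1
    · rcases mul_eq_zero.1 h1 with h2 | h2
      · exact ht h2
      · exact hp0 (leadingCoeff_eq_zero.1 h2)
    · obtain ⟨x, hx, hx0⟩ := Finset.prod_eq_zero_iff.1 h1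
      exact hno x ((Set.Finite.mem_toFinset _).1 hx) hx0
  obtain ⟨r, hr, hr'⟩ := split_aux Z F main _ F dvd_rfl hF0 hdeg
  rw [hlc] at hr'
  exact ⟨r, hr, hr'⟩

/-! ### the degree of the resultant -/

theorem HD_iff (n : ℕ) (p : ℤ[X][X]) :
    HD n p ↔ ∀ i j, (p.coeff i).coeff j ≠ 0 → i + j ≤ n := by
  constructor
  · intro h i j hij
    have h0 : p.coeff i ≠ 0 := by
      intro h0
      rw [h0, coeff_zero] at hij
      exact hij rfl
    have h1 := h i h0
    have h2 := le_natDegree_of_ne_zero hij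
    omega
  · intro h i h0
    have h1 := h i (p.coeff i).natDegree (by
      rw [coeff_natDegree]
      exact leadingCoeff_ne_zero.2 h0)
    omega

theorem HD_mono {m n : ℕ} (h : m ≤ n) {p : ℤ[X][X]} (hp : HD m p) : HD n p :=
  fun i hi => (hp i hi).trans h

theorem HD_zero (n : ℕ) : HD n 0 := by
  intro i hi
  exact absurd (coeff_zero i) hi

theorem HD_one : HD 0 1 := by
  rw [HD_iff]
  intro i j hij
  rw [coeff_one] at hij
  split_ifs at hij with hi
  · rw [coeff_one] at hij
    split_ifs at hij with hj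
    · omega
    · exact absurd rfl hij
  · rw [coeff_zero] at hij
    exact absurd rfl hij

theorem HD_int (c : ℤ) : HD 0 (c : ℤ[X][X]) := by
  rw [HD_iff]
  intro i j hij
  have h1 : (c : ℤ[X][X]) = C (C c) := by simp
  rw [h1, coeff_C] at hij
  split_ifs at hij with hi
  · rw [coeff_C] at hij
    split_ifs at hij with hj
    · omega
    · exact absurd rfl hij
  · rw [coeff_zero] at hij
    exact absurd rfl hij

theorem HD_X : HD 1 (X : ℤ[X][X]) := by
  rw [HD_iff]
  intro i j hij
  rw [coeff_X] at hij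
  split_ifs at hij with hi
  · rw [coeff_one] at hij
    split_ifs at hij with hj
    · omega
    · exact absurd rfl hij
  · rw [coeff_zero] at hij
    exact absurd rfl hij

theorem HD_CX : HD 1 (C X : ℤ[X][X]) := by
  rw [HD_iff]
  intro i j hij
  rw [coeff_C] at hij
  split_ifs at hij with hi
  · rw [coeff_X] at hij
    split_ifs at hij with hj
    · omega
    · exact absurd rfl hij
  · rw [coeff_zero] at hij
    exact absurd rfl hij

theorem HD_add {n : ℕ} {p q : ℤ[X][X]} (hp : HD n p) (hq : HD n q) : HD n (p + q) := by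
  rw [HD_iff] at hp hq ⊢
  intro i j hij
  rw [coeff_add, coeff_add] at hij
  by_contra hno
  have h1 : (p.coeff i).coeff j = 0 := by
    by_contra h
    exact hno (hp i j h)
  have h2 : (q.coeff i).coeff j = 0 := by
    by_contra h
    exact hno (hq i j h)
  rw [h1, h2, add_zero] at hij
  exact hij rfl

theorem HD_neg {n : ℕ} {p : ℤ[X][X]} (hp : HD n p) : HD n (-p) := by
  intro i hi
  rw [coeff_neg] at hi ⊢
  rw [natDegree_neg]
  exact hp i (neg_ne_zero.1 hi)

theorem HD_mul {m n : ℕ} {p q : ℤ[X][X]} (hp : HD m p) (hq : HD n q) : HD (m + n) (p * q) := by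
  rw [HD_iff] at hp hq ⊢
  intro i j hij
  rw [coeff_mul, finsetSum_coeff] at hij
  obtain ⟨⟨a, b⟩, hab, h1⟩ := Finset.exists_ne_zero_of_sum_ne_zero hij
  rw [coeff_mul] at h1
  obtain ⟨⟨c, d⟩, hcd, h2⟩ := Finset.exists_ne_zero_of_sum_ne_zero h1
  rw [Finset.HasAntidiagonal.mem_antidiagonal] at hab hcd
  have h3 := hp a c (left_ne_zero_of_mul h2)
  have h4 := hq b d (right_ne_zero_of_mul h2)
  simp only at hab hcd
  omega

theorem HD_sum {ι : Type*} {n : ℕ} (s : Finset ι) (f : ι → ℤ[X][X]) (h : ∀ i ∈ s, HD n (f i)) :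
    HD n (∑ i ∈ s, f i) := by
  classical
  induction s using Finset.induction_on with
  | empty =>
    rw [Finset.sum_empty]
    exact HD_zero n
  | insert a s ha ih =>
    rw [Finset.sum_insert ha]
    exact HD_add (h a (Finset.mem_insert_self a s))
      (ih fun i hi => h i (Finset.mem_insert_of_mem hi))

theorem HD_prod {ι : Type*} {n : ℕ} (s : Finset ι) (f : ι → ℤ[X][X]) (h : ∀ i ∈ s, HD n (f i)) :
    HD (s.card * n) (∏ i ∈ s, f i) := by
  classical
  induction s using Finset.induction_on with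
  | empty =>
    rw [Finset.prod_empty, Finset.card_empty, zero_mul]
    exact HD_one
  | insert a s ha ih =>
    rw [Finset.prod_insert ha, Finset.card_insert_of_notMem ha, add_mul, one_mul, add_comm]
    exact HD_mul (h a (Finset.mem_insert_self a s))
      (ih fun i hi => h i (Finset.mem_insert_of_mem hi))

/-- all coefficients have degree at most `n` -/
def HDp (n : ℕ) (P : ℤ[X][X][X]) : Prop := ∀ i, HD n (P.coeff i)

theorem HDp_mul {m n : ℕ} {P Q : ℤ[X][X][X]} (hP : HDp m P) (hQ : HDp n Q) :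
    HDp (m + n) (P * Q) := by
  intro i
  rw [coeff_mul]
  exact HD_sum _ _ fun x _ => HD_mul (hP x.1) (hQ x.2)

theorem HDp_C {n : ℕ} {p : ℤ[X][X]} (hp : HD n p) : HDp n (C p) := by
  intro i
  rw [coeff_C]
  split_ifs
  · exact hp
  · exact HD_zero n

theorem HDp_X : HDp 0 (X : ℤ[X][X][X]) := by
  intro i
  rw [coeff_X]
  split_ifs
  · exact HD_one
  · exact HD_zero 0

theorem HDp_pow {n : ℕ} {P : ℤ[X][X][X]} (hP : HDp n P) (k : ℕ) : HDp (k * n) (P ^ k) := by
  induction k with
  | zero =>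
    rw [pow_zero, zero_mul, ← C_1]
    exact HDp_C HD_one
  | succ k ih =>
    rw [pow_succ, add_mul, one_mul]
    exact HDp_mul ih hP

theorem HDp_sub {n : ℕ} {P Q : ℤ[X][X][X]} (hP : HDp n P) (hQ : HDp n Q) : HDp n (P - Q) := by
  intro i
  rw [coeff_sub, sub_eq_add_neg]
  exact HD_add (hP i) (HD_neg (hQ i))

theorem HDp_sb (Q : MvPolynomial (Fin 2) ℤ) (D : ℕ) (hQ : Q.totalDegree ≤ D) :
    HDp D (sb (X : ℤ[X][X]) (C X) Q) := by
  intro i
  rw [sb_eq, finsetSum_coeff]
  refine HD_sum _ _ fun m hm => ?_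
  have h1 : HDp (m 0) ((C (X : ℤ[X][X]) - C (C X) * X) ^ (m 0)) := by
    have h2 : HDp 1 (C (X : ℤ[X][X]) - C (C X) * X) := by
      refine HDp_sub (HDp_C HD_X) ?_
      have := HDp_mul (HDp_C HD_CX) HDp_X
      rwa [add_zero] at this
    have h3 := HDp_pow h2 (m 0)
    rwa [mul_one] at h3
  have h4 : HDp 0 ((X : ℤ[X][X][X]) ^ (m 1)) := by
    have := HDp_pow HDp_X (m 1)
    rwa [mul_zero] at this
  have h5 := HDp_mul (HDp_C (HD_int (Q.coeff m))) (HDp_mul h1 h4)
  have h6 := deg_le hm
  exact HD_mono (by omega) (h5 i)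

theorem Rs_HD (Q₁ Q₂ : MvPolynomial (Fin 2) ℤ) (D : ℕ) (h₁ : Q₁.totalDegree ≤ D)
    (h₂ : Q₂.totalDegree ≤ D) : HD (2 * D ^ 2) (Rs Q₁ Q₂) := by
  unfold Rs resultant
  rw [Matrix.det_apply]
  refine HD_sum _ _ fun σ _ => ?_
  have h3 : HD ((Finset.univ : Finset (Fin (Q₁.totalDegree + Q₂.totalDegree))).card * D)
      (∏ i, sylvester (sb (X : ℤ[X][X]) (C X) Q₁) (sb (X : ℤ[X][X]) (C X) Q₂) Q₁.totalDegree
        Q₂.totalDegree (σ i) i) := by
    refine HD_prod _ _ fun i _ => ?_
    unfold sylvester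
    rw [Matrix.of_apply]
    refine Fin.addCases (fun j => ?_) (fun j => ?_) i
    · rw [Fin.addCases_left]
      split_ifs
      · exact HDp_sb Q₂ D h₂ _
      · exact HD_zero D
    · rw [Fin.addCases_right]
      split_ifs
      · exact HDp_sb Q₁ D h₁ _
      · exact HD_zero D
  have h4 : (Finset.univ : Finset (Fin (Q₁.totalDegree + Q₂.totalDegree))).card * D ≤ 2 * D ^ 2 := by
    rw [Finset.card_univ, Fintype.card_fin]
    nlinarith
  rcases Int.units_eq_one_or (Equiv.Perm.sign σ) with h5 | h5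
  · rw [h5, one_smul]
    exact HD_mono h4 h3
  · rw [h5, Units.neg_smul, one_smul]
    exact HD_neg (HD_mono h4 h3)

end Pool.Agent.Helper60.LC
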